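import Pool.Agent.U761.SZ.LBF

set_option autoImplicit false

/-!
# Shifted moments of zeta of complex orders: sharp lower bounds, unconditional, relative to every Dirichlet polynomial

Let `k_j`, `l_j`, `α_j` be real, `V(t) = ∏_j |ζ(1/2 + i(t + α_j))|^(2 k_j) exp(2 l_j π S(t + α_j))`, where `π S(t) = arg ζ(1/2 + it)` is defined by
continuous variation. So `V(t) = |∏_j ζ(1/2 + i(t + α_j))^(2 (k_j - i l_j))|`, with the branches of the powers given by the continuous variation.
For every `A` there are `θ, c > 0` such that, without any hypothesis, for all large `T`, all `n`, all `k_j, l_j` of arbitrary signs with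
`∑ (|k_j| + |l_j|) ≤ A` and all shifts `|α_j| ≤ T/2`:

* `∫_T^{2T} V(t) dt ≥ c T exp (∑_{p ≤ T} |∑_j (k_j + i l_j) p^(iα_j)|² / p)`, which is the order of magnitude suggested by the independence of the
  `p^(it)`; for one shift `0` it is `c T (log T)^(k² + l²)`; the constant does not depend on the number of factors nor on the shifts;
* there is ONE Dirichlet polynomial `E` of length `T^(1/8)`, with mean square at least `c` times this order, such that for ALL
  Dirichlet polynomials `B` of length `T^θ`: `∫_T^{2T} V |B|² dt ≥ c ∫_T^{2T} |E B|² dt`.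

The integrals on the left may be infinite for negative `k_j`. For `l = 0` this is in the starting library (`Q97.UM.b_LBM`, see the hand-in
MP_112ba8_nt.ShiftedEveryPolynomial). New is the argument: it needs the comparison of the COMPLEX logarithm of zeta on the critical line with a
short Euler product relative to every Dirichlet polynomial (`Pool.Agent.U761.SZ.THH`), where possible zeros off the line are allowed.
-/

namespace Pool.Agent.Results.MP_fa2474_nt.ComplexOrders

open Filter Topology MeasureTheory Complex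

noncomputable section

/-- `S(t) = (1/π) arg ζ(1/2 + it)`, by continuous variation along the segments from `2` to `2 + it` and from `2 + it` to
`1/2 + it`: `(1/π) Im ∫ (ζ'/ζ)(s) ds` along this path -/
def S (t : ℝ) : ℝ := 1 / Real.pi * ((∫ u in (0 : ℝ)..t, (logDeriv riemannZeta ((2 : ℂ) + u * I)).re) -
  ∫ x in (1 / 2 : ℝ)..2, (logDeriv riemannZeta ((x : ℂ) + t * I)).im)

/-- the Dirichlet polynomial with the coefficients `b_1, ..., b_N` on the critical line -/
def B (N : ℕ) (b : ℕ → ℂ) (t : ℝ) : ℂ := ∑ n ∈ Finset.Icc 1 N, b n * (n : ℂ) ^ (-(1 / 2 + t * I))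

/-- the product `∏_j |ζ(1/2 + i(t + α_j))|^(2 k_j) exp(2 l_j π S(t + α_j))` -/
def V {n : ℕ} (k l α : Fin n → ℝ) (t : ℝ) : ℝ :=
  ∏ j, (‖riemannZeta (1 / 2 + (t + α j : ℝ) * I)‖ ^ (2 * k j) * Real.exp (2 * l j * (Real.pi * S (t + α j))))

/-- the order `exp (∑_{p ≤ T} |∑_j (k_j + i l_j) p^(iα_j)|² / p)` of its mean value -/
def order (T : ℝ) {n : ℕ} (k l α : Fin n → ℝ) : ℝ :=
  Real.exp (∑ p ∈ (Finset.Icc 1 ⌊T⌋₊).filter Nat.Prime, ‖∑ j, ((k j : ℂ) + l j * I) * (p : ℂ) ^ (α j * I)‖ ^ 2 / p)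

theorem V_ae {n : ℕ} (k l α : Fin n → ℝ) : ∀ᵐ t : ℝ, V k l α t =
    Real.exp (2 * (∑ j, (starRingEnd ℂ) ((k j : ℂ) + l j * I) * Pool.Agent.U761.SZ.Lz (t + α j)).re) := by
  have h1 : ∀ᵐ t : ℝ, ∀ j, riemannZeta (1 / 2 + (t + α j : ℝ) * I) ≠ 0 := ae_all_iff.2 fun j => Pool.Agent.Q98.UM.ae_zt (α j)
  have h2 : ∀ᵐ t : ℝ, ∀ j, Pool.Agent.U761.SZ.piS (t + α j) = Pool.Agent.U761.SZ.aS (t + α j) :=
    ae_all_iff.2 fun j => (measurePreserving_add_right (volume : Measure ℝ) (α j)).quasiMeasurePreserving.ae Pool.Agent.U761.SZ.ae_piS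
  filter_upwards [h1, h2] with t h1 h2
  unfold V
  rw [Complex.re_sum, Finset.mul_sum, Real.exp_sum]
  refine Finset.prod_congr rfl fun j _ => ?_
  have e1 : Real.pi * S (t + α j) = Pool.Agent.U761.SZ.aS (t + α j) := by
    rw [← h2 j]
    unfold S Pool.Agent.U761.SZ.piS
    rw [← mul_assoc, mul_one_div_cancel Real.pi_ne_zero, one_mul]
  rw [e1, Real.rpow_def_of_pos (norm_pos_iff.2 (h1 j)), ← Real.exp_add]
  congr 1
  unfold Pool.Agent.U761.SZ.Lz Pool.Agent.Q97.UM.zt
  simp only [map_add, map_mul, conj_ofReal, conj_I, mul_re, add_re, ofReal_re, add_im, ofReal_im, mul_im, neg_re, neg_im, I_re, I_im]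
  push_cast
  ring

/-- **Sharp lower bounds for the shifted moments of all complex orders, relative to every Dirichlet polynomial.** -/
theorem result (A : ℝ) : ∃ θ c T₀ : ℝ, 0 < θ ∧ 0 < c ∧ ∀ T : ℝ, T₀ ≤ T → ∀ (n : ℕ) (k l α : Fin n → ℝ),
    ∑ j, (|k j| + |l j|) ≤ A → (∀ j, |α j| ≤ T / 2) →
      ENNReal.ofReal (c * (T * order T k l α)) ≤ (∫⁻ t in Set.Icc T (2 * T), ENNReal.ofReal (V k l α t)) ∧
      ∃ (M : ℕ) (e : ℕ → ℂ), (M : ℝ) ≤ T ^ (1 / 8 : ℝ) ∧ c * (T * order T k l α) ≤ ∫ t in T..(2 * T), ‖B M e t‖ ^ 2 ∧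
        ∀ N : ℕ, (N : ℝ) ≤ T ^ θ → ∀ b : ℕ → ℂ,
          ENNReal.ofReal (c * ∫ t in T..(2 * T), ‖B M e t * B N b t‖ ^ 2) ≤
            ∫⁻ t in Set.Icc T (2 * T), ENNReal.ofReal (V k l α t * ‖B N b t‖ ^ 2) := by
  obtain ⟨θ, c, hθ, hc, h⟩ := Pool.Agent.U761.SZ.lowerC (le_max_right A 1)
  rw [Filter.eventually_atTop] at h
  obtain ⟨T₀, hT₀⟩ := h
  refine ⟨θ, min c (c * c), max T₀ 1, hθ, by positivity, fun T hT n k l α hk hα => ?_⟩
  have hT1 : 1 ≤ T := (le_max_right _ _).trans hT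
  have hz : ∑ j, ‖((k j : ℂ) + l j * I)‖ ≤ max A 1 := by
    refine le_trans (Finset.sum_le_sum fun j _ => ?_) (hk.trans (le_max_left _ _))
    refine (norm_add_le _ _).trans ?_
    rw [norm_mul, norm_I, mul_one, norm_real, norm_real, Real.norm_eq_abs, Real.norm_eq_abs]
  obtain ⟨M, e, hM, h1, h2⟩ := hT₀ T ((le_max_left _ _).trans hT) n (fun j => (k j : ℂ) + l j * I) α hz hα
  have hord : 0 ≤ T * order T k l α := mul_nonneg (by linarith) (Real.exp_pos _).le
  have hV : ∀ N : ℕ, ∀ b : ℕ → ℂ, (∫⁻ t in Set.Icc T (2 * T), ENNReal.ofReal (V k l α t * ‖B N b t‖ ^ 2)) =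
      ∫⁻ t in Set.Icc T (2 * T), ENNReal.ofReal (Real.exp (2 * (∑ j, (starRingEnd ℂ) ((k j : ℂ) + l j * I) *
        Pool.Agent.U761.SZ.Lz (t + α j)).re) * ‖Pool.Agent.Q97.UM.dp N b t‖ ^ 2) := by
    intro N b
    refine lintegral_congr_ae (ae_restrict_of_ae ?_)
    filter_upwards [V_ae k l α] with t ht
    rw [ht]
    rfl
  refine ⟨?_, M, e, hM, ?_, ?_⟩
  · -- the polynomial `1`
    set b : ℕ → ℂ := fun n => if n = 1 then 1 else 0 with hb
    have h3 := h2 1 (by rw [Nat.cast_one]; exact Real.one_le_rpow hT1 hθ.le) b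
    rw [← hV] at h3
    have hone : ∀ t, Pool.Agent.Q97.UM.dp 1 b t = 1 := by
      intro t
      unfold Pool.Agent.Q97.UM.dp
      simp [hb]
    have hone' : ∀ t, B 1 b t = 1 := hone
    simp only [hone, hone', mul_one, norm_one, one_pow] at h3
    refine le_trans (ENNReal.ofReal_le_ofReal ?_) h3
    calc min c (c * c) * (T * order T k l α) ≤ c * c * (T * order T k l α) :=
          mul_le_mul_of_nonneg_right (min_le_right _ _) hord
      _ = c * (c * (T * order T k l α)) := by ring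
      _ ≤ _ := mul_le_mul_of_nonneg_left h1 hc.le
  · exact (mul_le_mul_of_nonneg_right (min_le_left _ _) hord).trans h1
  · intro N hN b
    rw [hV]
    refine le_trans (ENNReal.ofReal_le_ofReal ?_) (h2 N hN b)
    refine mul_le_mul_of_nonneg_right (min_le_left _ _) ?_
    exact intervalIntegral.integral_nonneg (by linarith) fun t _ => by positivity

end

end Pool.Agent.Results.MP_fa2474_nt.ComplexOrders
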