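import Pool.Agent.TH612.CF.Mn
import Pool.Agent.U901.CFL.A

set_option autoImplicit false

/-!
# Shifted moments of the Riemann zeta function along lines of shifts

The shifted moments of the Riemann zeta function of every order `2k`, compared with the full
prediction `Q_k` of the recipe (all swaps), averaged over a line `γ + y v` of shift vectors, where
`v` is a vector of signs, `k` of them `+1`, with a band-limited weight `φ(y log T)`: the recipe
holds with a power saving.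
-/

namespace Pool.Agent.Results.MP_fa2474_nt.LinesOfShifts

open Complex MeasureTheory Filter Asymptotics
open scoped ContDiff

noncomputable section

variable {k : ℕ}

/-- The divisor function `τ_l(n)`: the sum over `d_1 d_2 ⋯ d_k = n` of `∏ j, d_j ^ l_j`. -/
def tau (l : Fin k → ℂ) (n : ℕ) : ℂ :=
  ∑ d ∈ Nat.finMulAntidiag k n, ∏ j, (d j : ℂ) ^ (l j)

/-- The Euler factor of `F(s; a, b)` at the prime `p`. -/
def localFactor (s : ℂ) (a b : Fin k → ℝ) (p : ℕ) : ℂ :=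
  (∏ j, ∏ l, (1 - (p : ℂ) ^ (-(2 * s + I * a j - I * b l)))) *
    ∑' m : ℕ, tau (fun j => I * b j) (p ^ m) * tau (fun j => -(I * a j)) (p ^ m) *
      (p : ℂ) ^ (-(2 * m * s))

/-- The arithmetic factor `F(s; a, b)`, an Euler product. -/
def arithF (s : ℂ) (a b : Fin k → ℝ) : ℂ := ∏' p : Nat.Primes, localFactor s a b p

/-- `ζ_{(a, b)}(s)`, through `F(s; a, b)` and the product of `k ^ 2` zeta functions. -/
def zetaAB (s : ℂ) (a b : Fin k → ℝ) : ℂ :=
  arithF s a b * ∏ j, ∏ l, riemannZeta (2 * s + I * a j - I * b l)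

/-- The factor `χ` of the functional equation `ζ(s) = χ(s) ζ(1 - s)`. -/
def chi (s : ℂ) : ℂ := (Real.pi : ℂ) ^ (s - 1 / 2) * Gamma ((1 - s) / 2) / Gamma (s / 2)

/-- `Z_{α, β}(t)`, where `γ = (α, β)` is indexed by `Fin k ⊕ Fin k`. -/
def Z (γ : Fin k ⊕ Fin k → ℝ) (t : ℝ) : ℂ :=
  ∏ j : Fin k, riemannZeta (1 / 2 + I * (t + γ (Sum.inl j))) *
    riemannZeta (1 / 2 - I * (t + γ (Sum.inr j)))

/-- `G_γ(π)`, where `π(γ)` has the coordinates `γ (π i)`. -/
def G (γ : Fin k ⊕ Fin k → ℝ) (t : ℝ) (π : Equiv.Perm (Fin k ⊕ Fin k)) : ℂ :=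
  (∏ j : Fin k, if (π (Sum.inl j)).isRight then chi (1 / 2 - I * t - I * γ (π (Sum.inl j))) else 1) *
  ∏ j : Fin k, if (π (Sum.inr j)).isLeft then chi (1 / 2 + I * t + I * γ (π (Sum.inr j))) else 1

/-- `Q_k(t; α, β)`: the summand depends only on the class of `π` in `S_{2k} / (S_k × S_k)`, so the
sum over the classes is the sum over all `π`, divided by `(k!) ^ 2`. -/
def Q (γ : Fin k ⊕ Fin k → ℝ) (t : ℝ) : ℂ :=
  ((Nat.factorial k : ℂ) ^ 2)⁻¹ * ∑ π : Equiv.Perm (Fin k ⊕ Fin k),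
    G γ t π * zetaAB (1 / 2) (fun j => γ (π (Sum.inl j))) (fun j => γ (π (Sum.inr j)))

/-- `φ(u) = ∫ ψ(ξ) e^{iξu} dξ` -/
def phi (ψ : ℝ → ℂ) (u : ℝ) : ℂ := ∫ ξ : ℝ, ψ ξ * exp (I * ξ * u)

/-- The average over the line `γ + y v`, `y ∈ ℝ`, of shift vectors, with the weight
`φ(y log T)`: the integrand. -/
def lineTerm (ψ : ℝ → ℂ) (γ v : Fin k ⊕ Fin k → ℝ) (T y : ℝ) : ℂ :=
  phi ψ (y * Real.log T) *
    ∫ t in (0:ℝ)..T, (Z (fun i => γ i + y * v i) t - Q (fun i => γ i + y * v i) t)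

lemma phi_eq (ψ : ℝ → ℂ) (v : ℝ) : phi ψ v = Pool.Agent.W182.KO.P ψ (v * I) := by
  unfold phi Pool.Agent.W182.KO.P
  congr 1; funext ξ
  congr 2
  ring

open Pool.Agent.TH612.CF in
lemma zetaAB_eq (a b : Fin k → ℝ) :
    zetaAB (1 / 2) a b = zab (fun j => (a j : ℂ)) (fun j => (b j : ℂ)) := by
  unfold zetaAB zab arithF FH
  congr 1
  · refine tprod_congr fun p => ?_
    unfold localFactor lh lt
    congr 1
    · refine Finset.prod_congr rfl fun j _ => Finset.prod_congr rfl fun l _ => ?_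
      congr 2
      ring
    · refine tsum_congr fun m => ?_
      have hp : ((p : ℕ) : ℂ) ≠ 0 := by exact_mod_cast p.2.ne_zero
      have e : ((p : ℕ) : ℂ) ^ (-(2 * (m : ℂ) * (1 / 2))) = (((p : ℕ) : ℂ) ^ m)⁻¹ := by
        rw [← Complex.cpow_natCast, ← Complex.cpow_neg]
        congr 1; ring
      rw [e]
      rfl
  · refine Finset.prod_congr rfl fun j _ => Finset.prod_congr rfl fun l _ => ?_
    congr 1
    ring

open Pool.Agent.TH612.CF in
lemma Q_eq (γ : Fin k ⊕ Fin k → ℝ) (t : ℝ) :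
    Q γ t = ((Nat.factorial k : ℂ) ^ 2)⁻¹ * Qs t (fun i => (γ i : ℂ)) := by
  unfold Q Qs Rt
  congr 1
  refine Finset.sum_congr rfl fun π _ => ?_
  rw [zetaAB_eq]
  rfl

open Pool.Agent.TH612.CF in
lemma lineTerm_eq (ψ : ℝ → ℂ) (γ v : Fin k ⊕ Fin k → ℝ) (T : ℝ) :
    lineTerm ψ γ v T = EE ψ γ v T := by
  funext y
  unfold lineTerm EE
  rw [phi_eq]
  congr 1
  · congr 1
    push_cast
    ring
  · refine intervalIntegral.integral_congr fun t _ => ?_
    simp only [Q_eq]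
    rfl

/-- Let `v` be a vector of signs with `k` entries `+1` and `k` entries `-1`, let `m` be the number
of its entries `+1` in the `β`-block, and let `γ = (α, β) ∈ ℝ ^ (2k)` be such that `γ_p ≠ γ_q`
whenever `p ≠ q` and `v_p = v_q`. Let `0 ≤ η < 2` and let `ψ` be smooth with compact support and
zero above `η - 2m`, `φ(u) = ∫ ψ(ξ) e^{iξu} dξ`. Then for all `ε > 0`
`∫_ℝ φ(y log T) ∫_0^T (Z_{γ + y v}(t) - Q_k(t; γ + y v)) dt dy = O(T ^ (1/2 + η/4 + ε))`,
and the integral over `y` converges absolutely for `T ≥ e`. -/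
theorem result (k : ℕ) (γ v : Fin k ⊕ Fin k → ℝ) (hv : ∀ i, v i = 1 ∨ v i = -1)
    (hk : (Finset.univ.filter fun i => v i = 1).card = k)
    (hγ : ∀ p q, p ≠ q → v p = v q → γ p ≠ γ q)
    (m : ℕ) (hm : (Finset.univ.filter fun j : Fin k => v (Sum.inr j) = 1).card = m)
    (η : ℝ) (hη0 : 0 ≤ η) (hη2 : η < 2) (ψ : ℝ → ℂ) (hψ : ContDiff ℝ ∞ ψ)
    (hψc : HasCompactSupport ψ) (hψ0 : ∀ ξ, η - 2 * m < ξ → ψ ξ = 0) :
    (∀ T : ℝ, Real.exp 1 ≤ T → Integrable (lineTerm ψ γ v T)) ∧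
    ∀ ε : ℝ, 0 < ε → (fun T : ℝ => ∫ y, lineTerm ψ γ v T y) =O[atTop]
      fun T : ℝ => T ^ (1 / 2 + η / 4 + ε) := by
  classical
  obtain ⟨π, hπ⟩ := Pool.Agent.U901.CFL.exists_good v hv hk
  have hi : Pool.Agent.TH612.CF.CI γ v := by
    intro p q h1 h2
    by_contra h
    exact hγ p q h h1 h2
  have hmv : Pool.Agent.TH612.CF.mv v = m := by
    rw [← hm]
    unfold Pool.Agent.TH612.CF.mv
    refine (Finset.card_bij (fun j _ => Sum.inr j) ?_ ?_ ?_).symm
    · intro j hj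
      simpa using hj
    · intro a _ b _ h
      exact Sum.inr_injective h
    · rintro (i | i) hi'
      · simp at hi'
      · exact ⟨i, by simpa using hi', rfl⟩
  have hT : Pool.Agent.W182.KO.TF (η - 2 * (Pool.Agent.TH612.CF.mv v : ℝ)) ψ := by
    refine ⟨hψ, hψc, ?_⟩
    rw [hmv]
    exact hψ0
  constructor
  · intro T hT1
    rw [lineTerm_eq]
    exact Pool.Agent.TH612.CF.EE_int hπ hi hT hT1
  · intro ε hε
    simp only [lineTerm_eq]
    exact Pool.Agent.TH612.CF.main_O hπ hi hη0 hη2 hT hε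

end

end Pool.Agent.Results.MP_fa2474_nt.LinesOfShifts
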