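import Pool.Agent.U899.MM.Main
import Pool.Agent.U899.MM.Cls
import Pool.Agent.U899.MM.Leb
import Pool.Agent.N748.MJ.Fin

set_option autoImplicit false

/-!
# Moments of moments of zeta near the critical line: both regimes, with the constants

Let `d = d(T) → 0` with `d log T / log(1/d)² → ∞`, and let

`M_T(t) = ∫_0^B |ζ(1/2 + d + i (t + h))|^(2β) dh`,

where the points at which `|ζ|` exceeds `(2d)^(-V)` are left out (`V > mβ` arbitrary).  For every integer
`m ≥ 1` and every real `β > 0` with `mβ² ≠ 1` the mean value over `0 ≤ t ≤ T` of `M_T(t)^m` is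
asymptotically

* `(2d)^(-mβ²) ∫_{[0,B]^m} A(h) ∏_{j ≠ l} |ζ(1 + i (h_j - h_l))|^(β²) dh` if `mβ² < 1`;
* `(2d)^(-(mβ)²) d^(m-1) B a(mβ) ∫_{x_0 = 0} ∏_{j,l} (1 + ((x_j - x_l)/2)²)^(-β²/2) dx` if `mβ² > 1`,

where `A(h)` is the arithmetic factor of the shifted moments and `a(mβ)` is the classical arithmetic factor of
the moment of order `2mβ`.  For `mβ² < 1` the shifts `h_j` of a typical `m`-tuple are at distances of order one
from each other, for `mβ² > 1` they are at distances of the order of `d`.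
-/

namespace Pool.Agent.Results.MP_fa2474_nt.MomentsOfMoments

open MeasureTheory Filter Topology

/-- `|ζ(1/2 + δ + i t)|` -/
noncomputable def Z (δ t : ℝ) : ℝ := ‖riemannZeta (1 / 2 + δ + t * Complex.I)‖

/-- The admissible distances to the critical line. -/
structure Admissible (d : ℝ → ℝ) : Prop where
  pos : ∀ᶠ T : ℝ in atTop, 0 < d T
  small : Tendsto d atTop (𝓝 0)
  large : Tendsto (fun T : ℝ => d T * Real.log T / Real.log (1 / d T) ^ 2) atTop atTop

/-- The moment of order `2β` over `t + [0, B]`, without the values of `|ζ|` above `(2δ)^(-V)`. -/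
noncomputable def moment (β V B δ t : ℝ) : ℝ :=
  ∫ h in Set.Icc 0 B, if Z δ (t + h) ≤ (2 * δ) ^ (-V) then Z δ (t + h) ^ (2 * β) else 0

/-- The mean value over `0 ≤ t ≤ T` of the power `m` of the moments at distance `d T`. -/
noncomputable def momentOfMoments (d : ℝ → ℝ) (β V B : ℝ) (m : ℕ) (T : ℝ) : ℝ :=
  (1 / T) * ∫ t in Set.Icc 0 T, moment β V B (d T) t ^ m

/-- The classical arithmetic factor `a(k)`; `(k)(k+1)⋯(k+r-1)/r!` is `Γ(k+r)/(Γ(k) r!)`. -/
noncomputable def a (k : ℝ) : ℝ := ∏' p : Nat.Primes,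
  (1 - 1 / (p : ℝ)) ^ (k ^ 2) * ∑' r : ℕ, (∏ i ∈ Finset.range r, (k + i) / ((i : ℝ) + 1)) ^ 2 / (p : ℝ) ^ r

/-- The coefficient of `x^r` in `∏_j (1 - x p^(-i h_j))^(-β)`. -/
noncomputable def coeff (β : ℝ) {m : ℕ} (h : Fin m → ℝ) (p r : ℕ) : ℂ :=
  ∑ μ ∈ Finset.piAntidiag (Finset.univ : Finset (Fin m)) r,
    ∏ j, ((∏ i ∈ Finset.range (μ j), (β + i) / ((i : ℝ) + 1) : ℝ) : ℂ) * (p : ℂ) ^ (-((μ j * h j : ℝ) * Complex.I))

/-- The arithmetic factor of the shifted moments. -/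
noncomputable def A (β : ℝ) {m : ℕ} (h : Fin m → ℝ) : ℝ := ∏' p : Nat.Primes,
  (∏ j, ∏ l, ‖1 - ((p : ℕ) : ℂ) ^ (-(1 + ((h j - h l : ℝ) : ℂ) * Complex.I))‖ ^ (β * β)) *
    ∑' r : ℕ, ‖coeff β h p r‖ ^ 2 * ((p : ℝ) ^ r)⁻¹

/-- The limit density in the regime `mβ² < 1`. -/
noncomputable def density (β : ℝ) {m : ℕ} (h : Fin m → ℝ) : ℝ :=
  A β h * ∏ j, ∏ l ∈ ({j}ᶜ : Finset (Fin m)), ‖riemannZeta (1 + ((h j - h l : ℝ) : ℂ) * Complex.I)‖ ^ (β * β)

/-- The kernel of the regime `mβ² > 1`, at the points `0, x_1, …, x_(m-1)`. -/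
noncomputable def kernel (β : ℝ) {n : ℕ} (x : Fin n → ℝ) : ℝ :=
  ∏ j : Fin (n + 1), ∏ l : Fin (n + 1),
    (1 + (((Fin.cons 0 x : Fin (n + 1) → ℝ) j - (Fin.cons 0 x : Fin (n + 1) → ℝ) l) / 2) ^ 2) ^ (-(β * β / 2))

theorem result (d : ℝ → ℝ) (hd : Admissible d) (n : ℕ) (β V B : ℝ) (hβ : 0 < β) (hB : 0 < B)
    (hV : (n + 1 : ℝ) * β < V) :
    ((n + 1 : ℝ) * β ^ 2 < 1 →
      IntegrableOn (density β) (Set.univ.pi fun _ : Fin (n + 1) => Set.Icc 0 B) ∧
      0 < ∫ h in Set.univ.pi fun _ : Fin (n + 1) => Set.Icc 0 B, density β h ∧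
      Tendsto (fun T => (2 * d T) ^ ((n + 1 : ℝ) * β ^ 2) * momentOfMoments d β V B (n + 1) T) atTop
        (𝓝 (∫ h in Set.univ.pi fun _ : Fin (n + 1) => Set.Icc 0 B, density β h))) ∧
    (1 < (n + 1 : ℝ) * β ^ 2 →
      Integrable (fun x : Fin n → ℝ => kernel β x) ∧ 0 < B * a ((n + 1 : ℝ) * β) * ∫ x : Fin n → ℝ, kernel β x ∧
      Tendsto (fun T => (2 * d T) ^ (((n + 1 : ℝ) * β) ^ 2) * (d T ^ n)⁻¹ * momentOfMoments d β V B (n + 1) T) atTop
        (𝓝 (B * a ((n + 1 : ℝ) * β) * ∫ x : Fin n → ℝ, kernel β x))) := by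
  have hAd : Pool.Agent.N748.MG.Ad d := ⟨hd.pos, hd.small, hd.large⟩
  have hSM := Pool.Agent.N748.MJ.smF
  have hP := Pool.Agent.N748.MJ.posF
  have hC := Pool.Agent.N748.MJ.conF
  have hG := Pool.Agent.N748.MJ.gvbF
  have h0 := Pool.Agent.N748.MJ.av0F
  set μ : Measure ℝ := volume.restrict (Set.Icc 0 B) with hμd
  have hfin : IsFiniteMeasure μ := ⟨by rw [hμd, Measure.restrict_apply_univ]; simp [Real.volume_Icc]⟩
  have hμs : μ (Set.Icc (-B) B)ᶜ = 0 := by
    rw [hμd, Measure.restrict_apply measurableSet_Icc.compl]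
    have : (Set.Icc (-B) B)ᶜ ∩ Set.Icc 0 B = ∅ := by
      rw [Set.eq_empty_iff_forall_notMem]
      rintro x ⟨h1, h2⟩
      exact h1 ⟨by linarith [h2.1], h2.2⟩
    rw [this, measure_empty]
  have hμ0 : μ ≠ 0 := by
    intro h
    have h1 : μ Set.univ = 0 := by rw [h]; simp
    rw [hμd, Measure.restrict_apply_univ, Real.volume_Icc] at h1
    simp only [sub_zero, ENNReal.ofReal_eq_zero] at h1
    linarith
  have hA : ∀ {m : ℕ} (h : Fin m → ℝ), Pool.Agent.U899.MM.AA β h = A β h := fun h =>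
    Pool.Agent.U899.MM.AA_eq hG β h
  have hcl : ∀ c : ℝ, Pool.Agent.U899.MM.AA β (fun _ : Fin (n + 1) => c) = a ((n + 1 : ℝ) * β) := by
    intro c
    have := Pool.Agent.U899.MM.cls hG h0 β (n + 1) c
    rw [this]
    unfold a Pool.Agent.U899.MM.cl
    push_cast
    rfl
  obtain ⟨c0, C0, hc0, hb⟩ := Pool.Agent.U899.MM.AA_bd hP β (n + 1)
  have hAcont := Pool.Agent.U899.MM.AA_cont hC β (n + 1)
  have hMoM : ∀ T, Pool.Agent.U899.MM.MoM d β V n μ T = momentOfMoments d β V B (n + 1) T := fun T => rfl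
  have hbb : β * β = β ^ 2 := (pow_two β).symm
  have hb0 : 0 < β * β := mul_pos hβ hβ
  refine ⟨fun h1 => ?_, fun h1 => ?_⟩
  · have hR : Pool.Agent.U899.MM.Riesz ((n + 1 : ℝ) * (β * β)) μ := by
      rw [hbb]
      exact Pool.Agent.U899.MM.riesz_leb (by positivity) h1 B
    obtain ⟨g1, g2⟩ := Pool.Agent.U899.MM.sub_lim (n := n) (μ := μ) (A := Pool.Agent.U899.MM.AA β) (CA := C0)
      (b := β * β) (R := B) hAcont.measurable (fun h => (hb h).2) hb0 hB.le hμs hR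
    have g3 := Pool.Agent.U899.MM.sub_pos (n := n) (μ := μ) (A := Pool.Agent.U899.MM.AA β) (b := β * β)
      (fun h => hc0.trans_le (hb h).1) hb0 hμ0 hR g1
    have g4 := Pool.Agent.U899.MM.mom_lim hSM hP hC (n := n) (μ := μ) (R := B) hμs hAd (β := β) (V := V) hβ hV
      (c := fun δ => (2 * δ) ^ ((n + 1 : ℝ) * (β * β))) (fun δ hδ => by positivity) g2
    have hdens : Pool.Agent.U899.MM.GM (n := n) (Pool.Agent.U899.MM.AA β) (β * β) = density β := by
      funext h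
      unfold Pool.Agent.U899.MM.GM density
      rw [hA h]
      congr 1
      refine Finset.prod_congr rfl fun j _ => Finset.prod_congr rfl fun l _ => ?_
      unfold Pool.Agent.U899.MM.ze
      simp
    have hpi : (Measure.pi fun _ : Fin (n + 1) => μ) =
        (volume : Measure (Fin (n + 1) → ℝ)).restrict (Set.univ.pi fun _ : Fin (n + 1) => Set.Icc 0 B) :=
      Pool.Agent.U899.MM.pi_restrict (n + 1) B
    rw [hdens, hpi] at g1 g3 g4
    refine ⟨g1, g3, ?_⟩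
    rw [← hbb]
    exact g4
  · have g1 := Pool.Agent.U899.MM.sup_lim (n := n) (A := Pool.Agent.U899.MM.AA β) (CA := C0)
      (A0 := a ((n + 1 : ℝ) * β)) (b := β * β) (B := B) hAcont (fun h => (hb h).2) hcl hb0 hB (by rw [hbb]; exact h1)
    have g2 := Pool.Agent.U899.MM.mom_lim hSM hP hC (n := n) (μ := μ) (R := B) hμs hAd (β := β) (V := V) hβ hV
      (c := fun δ => (2 * δ) ^ (((n + 1 : ℝ) ^ 2) * (β * β)) * (δ ^ n)⁻¹) (fun δ hδ => by positivity) g1
    have hk : ∀ x : Fin n → ℝ, Pool.Agent.U899.MM.KK n (β * β) x = kernel β x := fun x => rfl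
    have g3 := Pool.Agent.U899.MM.KK_int (n := n) (b := β * β) (by rw [hbb]; exact h1)
    have g4 := Pool.Agent.U899.MM.KK_int_pos (n := n) (b := β * β) (by rw [hbb]; exact h1)
    refine ⟨g3, ?_, ?_⟩
    · have : 0 < a ((n + 1 : ℝ) * β) := by
        rw [← hcl 0]
        exact hc0.trans_le (hb _).1
      exact mul_pos (mul_pos hB this) g4
    · have he : ((n + 1 : ℝ) * β) ^ 2 = ((n + 1 : ℝ) ^ 2) * (β * β) := by ring
      rw [he]
      exact g2

end Pool.Agent.Results.MP_fa2474_nt.MomentsOfMoments
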