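import Pool.Agent.U183.HS.Bds

set_option autoImplicit false

/-!
# MP_fa2474_nt: shifted moments of zeta along sparse sets of heights, arbitrary shifts, power saving

For every `k` and all shifts `a, b ∈ ℝ^k` the mean of `Z_{a+u,b-u}(t)` over a sparse set of heights `t ∈ [T, 2T]`, averaged over
the common shift `u` against `φ(u log T)`, `φ` band-limited, is the diagonal term of the recipe with a power saving, in the full
range allowed by the sparsity: arithmetic progressions with almost every spacing, windows of almost every dilate of a separated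
sequence, most dilates of Frostman measures.
-/

namespace Pool.Agent.Results.MP_fa2474_nt.SparseHeights

open Complex MeasureTheory Filter Topology Set
open scoped ContDiff ENNReal

noncomputable section

/-- the product `Z_{a,b}(t)` of the problem -/
def Z {k : ℕ} (a b : Fin k → ℝ) (t : ℝ) : ℂ :=
  ∏ j, riemannZeta (1 / 2 + I * (t + a j)) * riemannZeta (1 / 2 - I * (t + b j))

/-- the divisor function `τ_l(n)` of the problem -/
def tau {k : ℕ} (l : Fin k → ℂ) (n : ℕ) : ℂ := ∑ f ∈ Nat.finMulAntidiag k n, ∏ j, (f j : ℂ) ^ (l j)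

/-- `φ(v) = ∫ ψ(ξ) e^{iξv} dξ` -/
def phi (ψ : ℝ → ℂ) (v : ℝ) : ℂ := ∫ ξ : ℝ, ψ ξ * exp (I * ξ * v)

/-- the main term: the Dirichlet series of `ζ_{(a,b)}` at `1/2`, weighted with `ψ(2 log n / log T)` -/
def mainTerm {k : ℕ} (a b : Fin k → ℝ) (ψ : ℝ → ℂ) (T : ℝ) : ℂ :=
  2 * Real.pi / Real.log T * ∑' n : ℕ, tau (fun j => -(I * a j)) n * tau (fun j => I * b j) n / n *
    ψ (2 * Real.log n / Real.log T)

/-- `F T ν` says that the probability measure `ν` belongs to the family of distributions of heights at `T`. The family obeys the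
recipe up to the exponent `m`: for all `k`, all shifts `a, b`, all `θ, η ≥ 0` with `θ + η < m` and all smooth compactly supported
`ψ` vanishing above `2θ` the average over `u`, with weight `φ(u log T)`, of the `ν`-mean of `Z_{a+u, b-u}` is the main term up to
`T^(-η)`, for all large `T` and all members `ν` of the family at `T`. -/
def Recipe (m : ℝ) (F : ℝ → Measure ℝ → Prop) : Prop :=
  ∀ (k : ℕ) (a b : Fin k → ℝ) (θ η : ℝ), 0 ≤ θ → 0 ≤ η → θ + η < m → ∀ ψ : ℝ → ℂ, ContDiff ℝ ∞ ψ → HasCompactSupport ψ →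
    (∀ ξ : ℝ, 2 * θ < ξ → ψ ξ = 0) → ∃ T₀ : ℝ, ∀ T : ℝ, T₀ ≤ T → ∀ ν : Measure ℝ, F T ν →
      Integrable (fun u : ℝ => phi ψ (Real.log T * u) * ∫ t, Z (fun j => a j + u) (fun j => b j - u) t ∂ν) ∧
      ‖(∫ u : ℝ, phi ψ (Real.log T * u) * ∫ t, Z (fun j => a j + u) (fun j => b j - u) t ∂ν) - mainTerm a b ψ T‖ ≤ T ^ (-η)

/-- the uniform distribution on the finite sequence `t_0, ..., t_{J-1}` -/
def unif (J : ℕ) (t : ℕ → ℝ) : Measure ℝ := ((J : ℝ≥0∞)⁻¹) • ∑ j ∈ Finset.range J, Measure.dirac (t j)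

/-- Frostman measures of dimension `s` with constant `K` on `[1,2]` -/
def Frostman (s K : ℝ) (μ : Measure ℝ) : Prop :=
  IsProbabilityMeasure μ ∧ (∀ᵐ x ∂μ, x ∈ Icc (1:ℝ) 2) ∧
    ∀ x r : ℝ, 0 < r → μ (Metric.closedBall x r) ≤ ENNReal.ofReal (K * r ^ s)

lemma phi_eq (ψ : ℝ → ℂ) (v : ℝ) : phi ψ v = W182.KO.P ψ (v * I) := by
  unfold phi W182.KO.P
  congr 1; funext ξ
  congr 2
  ring

lemma Z_eq {k : ℕ} (a b : Fin k → ℝ) (u t : ℝ) : Z (fun j => a j + u) (fun j => b j - u) t =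
    W182.KO.ZP a (1 / 2 + (u + t : ℝ) * I) * W182.KO.ZP (fun j => -b j) (1 / 2 + (u - t : ℝ) * I) := by
  unfold Z W182.KO.ZP
  rw [← Finset.prod_mul_distrib]
  refine Finset.prod_congr rfl fun j _ => ?_
  congr 2
  · push_cast; ring
  · push_cast; ring

lemma int_eq {k : ℕ} (a b : Fin k → ℝ) (ψ : ℝ → ℂ) (T : ℝ) (ν : Measure ℝ) :
    (fun u : ℝ => phi ψ (Real.log T * u) * ∫ t, Z (fun j => a j + u) (fun j => b j - u) t ∂ν) =
        (fun y : ℝ => W182.KO.P ψ (Real.log T * y * I) * (∫ t, W182.KO.ZP a (1 / 2 + (y + t : ℝ) * I) *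
          W182.KO.ZP (fun j => -b j) (1 / 2 + (y - t : ℝ) * I) ∂ν)) := by
  funext u
  simp only [Z_eq]
  rw [phi_eq]
  congr 2
  push_cast; ring

lemma main_eq {k : ℕ} (a b : Fin k → ℝ) (ψ : ℝ → ℂ) (T : ℝ) : mainTerm a b ψ T = ((2 * Real.pi / Real.log T : ℝ) : ℂ) *
    ∑' n : ℕ, W182.KO.tau (fun j => -(a j * I)) n * W182.KO.tau (fun j => -(((-b j : ℝ) : ℂ) * I)) n / n *
      ψ (2 * Real.log n / Real.log T) := by
  unfold mainTerm
  have e3 : (fun j : Fin k => -(I * (a j : ℂ))) = fun j => -((a j : ℂ) * I) := by funext j; ring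
  have e4 : (fun j : Fin k => I * (b j : ℂ)) = fun j => -(((-b j : ℝ) : ℂ) * I) := by funext j; push_cast; ring
  rw [e3, e4]
  push_cast
  rfl

/-- the last step of the estimates -/
lemma fin_est {C η σ : ℝ} (hC : 0 ≤ C) (hσ : 0 < σ) : ∃ T₁ : ℝ, 1 ≤ T₁ ∧ ∀ T : ℝ, T₁ ≤ T →
    C * (T ^ (-(η + σ)) + (T ^ (⌈η + σ⌉₊))⁻¹) ≤ T ^ (-η) := by
  have t1 : Tendsto (fun T : ℝ => T ^ σ) atTop atTop := tendsto_rpow_atTop hσ
  obtain ⟨T₁, hT₁⟩ := eventually_atTop.mp ((t1.eventually_ge_atTop (2 * C)).and (eventually_ge_atTop 1))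
  refine ⟨max 1 T₁, le_max_left _ _, fun T hT => ?_⟩
  obtain ⟨h1, h2⟩ := hT₁ T ((le_max_right _ _).trans hT)
  have hT0 : 0 < T := by linarith
  have h3 : (T ^ (⌈η + σ⌉₊))⁻¹ ≤ T ^ (-(η + σ)) := by
    rw [Real.rpow_neg hT0.le, ← Real.rpow_natCast]
    refine inv_anti₀ (by positivity) ?_
    exact Real.rpow_le_rpow_of_exponent_le h2 (Nat.le_ceil _)
  calc C * (T ^ (-(η + σ)) + (T ^ (⌈η + σ⌉₊))⁻¹) ≤ C * (T ^ (-(η + σ)) + T ^ (-(η + σ))) := by gcongr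
    _ = (2 * C) * (T ^ σ)⁻¹ * T ^ (-η) := by
        have : T ^ (-(η + σ)) = (T ^ σ)⁻¹ * T ^ (-η) := by
          rw [← Real.rpow_neg hT0.le, ← Real.rpow_add hT0]; congr 1; ring
        rw [this]; ring
    _ ≤ 1 * T ^ (-η) := by
        gcongr
        rw [← div_eq_mul_inv, div_le_one (by positivity)]
        exact h1
    _ = _ := one_mul _

/-- criterion in terms of the weighted sum of the characters -/
lemma recipe_lam {m : ℝ} {F : ℝ → Measure ℝ → Prop}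
    (hL : ∀ θ η : ℝ, 0 ≤ θ → 0 ≤ η → θ + η < m → ∃ κ σ T₁ : ℝ, 0 < κ ∧ 0 < σ ∧ ∀ T : ℝ, T₁ ≤ T → ∀ ν : Measure ℝ, F T ν →
      IsProbabilityMeasure ν ∧ (∀ᵐ t ∂ν, t ∈ Icc T (2 * T)) ∧
        U183.HS.Lam (3 * κ) ν * T ^ (2 * θ * (1 / 2 + 4 * κ)) ≤ T ^ (-(η + σ))) : Recipe m F := by
  intro k a b θ η hθ hη hm ψ hψ hc hs
  obtain ⟨κ, σ, T₁, hκ, hσ, hL⟩ := hL θ η hθ hη hm
  obtain ⟨C, T₂, hC, hT₂, h⟩ := U183.HS.meas_w (ξ1 := 2 * θ) (ψ := ψ) ⟨hψ, hc, hs⟩ (by linarith) hκ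
    a (fun j => -b j) ⌈η + σ⌉₊
  obtain ⟨T₃, hT₃, hf⟩ := fin_est (η := η) hC hσ
  refine ⟨max T₁ (max T₂ T₃), fun T hT ν hν => ?_⟩
  have hTa := (le_max_left _ _).trans hT
  have hTb := (le_max_left _ _).trans ((le_max_right _ _).trans hT)
  have hTc := (le_max_right _ _).trans ((le_max_right _ _).trans hT)
  obtain ⟨h1, h2, h3⟩ := hL T hTa ν hν
  obtain ⟨i1, i2⟩ := h T hTb ν h1 h2
  rw [int_eq, main_eq]
  refine ⟨i1, i2.trans (le_trans ?_ (hf T hTc))⟩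
  gcongr

lemma unif_supp {T : ℝ} {J : ℕ} {t : ℕ → ℝ} (h1 : ∀ j < J, t j ∈ Icc T (2 * T)) :
    ∀ᵐ x ∂(unif J t), x ∈ Icc T (2 * T) := by
  unfold unif
  refine Measure.ae_smul_measure ?_ _
  rw [ae_iff, Measure.finsetSum_apply]
  refine Finset.sum_eq_zero fun j hj => ?_
  rw [show {a : ℝ | a ∉ Icc T (2 * T)} = (Icc T (2 * T))ᶜ from rfl, Measure.dirac_apply' _ (measurableSet_Icc.compl)]
  simp only [indicator_apply_eq_zero]
  intro hmem
  exact absurd (h1 j (Finset.mem_range.1 hj)) hmem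

/-- arithmetic progressions -/
lemma part1 : ∀ᵐ h : ℝ, 0 < h → ∀ κ : ℝ, 0 < κ → Recipe κ (fun T ν => ∃ (J : ℕ) (x : ℝ), T ^ κ ≤ J ∧ T ≤ x ∧
    x + J * h ≤ 2 * T ∧ ν = unif J (fun j => x + j * h)) := by
  have h1 : ∀ n : ℕ, ∀ᵐ h : ℝ, 0 < h → ∃ C : ℝ, 0 ≤ C ∧ ∀ J : ℕ, 1 ≤ J → ∀ x : ℝ,
      U183.HS.Lam (3 * (1 / ((n:ℝ) + 2))) (R461.HM.unif J (fun j => x + j * h)) ≤ C * (J : ℝ) ^ (1 / ((n:ℝ) + 2) - 1) :=
    fun n => U183.HS.ap_lam (by positivity) (by positivity)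
  rw [← ae_all_iff] at h1
  filter_upwards [h1] with h hh hpos κ hκ
  refine recipe_lam fun θ η hθ hη hm => ?_
  obtain ⟨g, hg⟩ : ∃ g, g = κ - θ - η := ⟨_, rfl⟩
  have hg0 : 0 < g := by rw [hg]; linarith
  obtain ⟨n, hn⟩ := exists_nat_one_div_lt (show 0 < g / (4 * (κ + 8 * θ)) by positivity)
  obtain ⟨ε, hε⟩ : ∃ ε, ε = 1 / ((n:ℝ) + 2) := ⟨_, rfl⟩
  have hε0 : 0 < ε := by rw [hε]; positivity
  have hε1 : ε < 1 := by
    rw [hε, div_lt_one (by positivity)]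
    have : (0:ℝ) ≤ n := by positivity
    linarith
  have hεg : ε * (κ + 8 * θ) ≤ g / 4 := by
    have h2 : ε ≤ g / (4 * (κ + 8 * θ)) := by
      refine le_trans ?_ hn.le
      rw [hε]
      exact one_div_le_one_div_of_le (by positivity) (by linarith)
    rw [le_div_iff₀ (by positivity)] at h2
    linarith
  obtain ⟨C, hC, hb⟩ := hh n hpos
  rw [← hε] at hb
  have t1 : Tendsto (fun T : ℝ => C * T ^ (-(g / 4))) atTop (𝓝 (C * 0)) :=
    (tendsto_rpow_neg_atTop (by positivity)).const_mul _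
  rw [mul_zero] at t1
  obtain ⟨T₁, hT₁⟩ := eventually_atTop.mp ((t1.eventually (gt_mem_nhds (show (0:ℝ) < 1 by norm_num))).and
    (eventually_ge_atTop 1))
  refine ⟨ε, g / 2, T₁, hε0, by positivity, fun T hT ν ⟨J, x, hJ, hx1, hx2, hν⟩ => ?_⟩
  obtain ⟨q1, q2⟩ := hT₁ T hT
  have hT0 : 0 < T := by linarith
  have hJ1r : (1:ℝ) ≤ J := (Real.one_le_rpow q2 hκ.le).trans hJ
  have hJ1 : 1 ≤ J := by exact_mod_cast hJ1r
  have hJ0 : (0:ℝ) < J := by linarith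
  subst hν
  refine ⟨U183.HS.unif_prob hJ1 _, unif_supp fun j hj => ?_, ?_⟩
  · have h2 : (j:ℝ) ≤ J := by exact_mod_cast hj.le
    constructor
    · have : 0 ≤ (j:ℝ) * h := by positivity
      linarith
    · have : (j:ℝ) * h ≤ J * h := by gcongr
      linarith
  · have h3 : U183.HS.Lam (3 * ε) (unif J (fun j => x + j * h)) ≤ C * T ^ (κ * (ε - 1)) := by
      refine (hb J hJ1 x).trans ?_
      refine mul_le_mul_of_nonneg_left ?_ hC
      rw [Real.rpow_mul hT0.le]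
      exact Real.rpow_le_rpow_of_nonpos (by positivity) hJ (by linarith)
    calc U183.HS.Lam (3 * ε) (unif J (fun j => x + j * h)) * T ^ (2 * θ * (1 / 2 + 4 * ε))
        ≤ (C * T ^ (κ * (ε - 1))) * T ^ (2 * θ * (1 / 2 + 4 * ε)) := by gcongr
      _ = C * T ^ (κ * (ε - 1) + 2 * θ * (1 / 2 + 4 * ε)) := by rw [mul_assoc, ← Real.rpow_add hT0]
      _ ≤ C * T ^ (-(g / 4) + -(η + g / 2)) := by
          refine mul_le_mul_of_nonneg_left (Real.rpow_le_rpow_of_exponent_le q2 ?_) hC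
          have e : κ * (ε - 1) + 2 * θ * (1 / 2 + 4 * ε) = ε * (κ + 8 * θ) - κ + θ := by ring
          rw [e]
          linarith
      _ = (C * T ^ (-(g / 4))) * T ^ (-(η + g / 2)) := by rw [Real.rpow_add hT0]; ring
      _ ≤ 1 * T ^ (-(η + g / 2)) := by gcongr
      _ = _ := one_mul _

/-- dilates of separated sequences -/
lemma part2 (a : ℕ → ℝ) (ha0 : 0 ≤ a 0) (ha : ∀ j, a j + 1 ≤ a (j + 1)) : ∀ᵐ h : ℝ, 0 < h → ∀ κ : ℝ, 0 < κ →
    Recipe (κ / 2) (fun T ν => ∃ u J : ℕ, 1 ≤ J ∧ (∀ j < J, h * a (u + j) ∈ Icc T (2 * T)) ∧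
      T ^ κ * ((u : ℝ) + J) ≤ (J : ℝ) ^ 2 ∧ ν = unif J (fun j => h * a (u + j))) := by
  have h1 : ∀ n : ℕ, ∀ᵐ h : ℝ, ∃ C : ℝ, 0 ≤ C ∧ ∀ u J : ℕ, 1 ≤ J →
      U183.HS.Lam (3 * (1 / ((n:ℝ) + 1))) (R461.HM.unif J (fun j => h * a (u + j))) ≤
        C * ((J : ℝ)⁻¹ * ((u + J : ℕ) : ℝ) ^ ((1 + 3 * (1 / ((n:ℝ) + 1))) / 2)) :=
    fun n => U183.HS.dil_lam ha (by positivity)
  rw [← ae_all_iff] at h1
  filter_upwards [h1] with h hh hpos κ hκ
  refine recipe_lam fun θ η hθ hη hm => ?_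
  obtain ⟨g, hg⟩ : ∃ g, g = κ / 2 - θ - η := ⟨_, rfl⟩
  have hg0 : 0 < g := by rw [hg]; linarith
  obtain ⟨n, hn⟩ := exists_nat_one_div_lt (show 0 < g / (4 * (3 + 8 * θ)) by positivity)
  obtain ⟨ε, hε⟩ : ∃ ε, ε = 1 / ((n:ℝ) + 1) := ⟨_, rfl⟩
  have hε0 : 0 < ε := by rw [hε]; positivity
  have hεg : ε * (3 + 8 * θ) ≤ g / 4 := by
    have h2 : ε ≤ g / (4 * (3 + 8 * θ)) := by
      rw [hε]; exact hn.le
    rw [le_div_iff₀ (by positivity)] at h2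
    linarith
  obtain ⟨C, hC, hb⟩ := hh n
  rw [← hε] at hb
  have t1 : Tendsto (fun T : ℝ => C * T ^ (-(g / 4))) atTop (𝓝 (C * 0)) :=
    (tendsto_rpow_neg_atTop (by positivity)).const_mul _
  rw [mul_zero] at t1
  obtain ⟨T₁, hT₁⟩ := eventually_atTop.mp ((t1.eventually (gt_mem_nhds (show (0:ℝ) < 1 by norm_num))).and
    ((eventually_ge_atTop 1).and (eventually_ge_atTop (2 / h + 1))))
  refine ⟨ε, g / 2, T₁, hε0, by positivity, fun T hT ν ⟨u, J, hJ1, hw, hwin, hν⟩ => ?_⟩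
  obtain ⟨q1, q2, q3⟩ := hT₁ T hT
  have hT0 : 0 < T := by linarith
  have hJ0 : (0:ℝ) < J := by exact_mod_cast hJ1
  subst hν
  refine ⟨U183.HS.unif_prob hJ1 _, unif_supp hw, ?_⟩
  have hsep := U325.DS.Sep.add (a := a) ha 0 (u + J - 1)
  rw [zero_add] at hsep
  have huJ : ((u + J : ℕ) : ℝ) ≤ T ^ (2:ℝ) := by
    have h2 := (hw (J - 1) (by omega)).2
    rw [show u + (J - 1) = u + J - 1 by omega] at h2
    have h3 : ((u + J - 1 : ℕ) : ℝ) ≤ a (u + J - 1) := by linarith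
    have h4 : ((u + J - 1 : ℕ) : ℝ) = ((u + J : ℕ) : ℝ) - 1 := by
      rw [Nat.cast_sub (by omega)]; simp
    have h5 : a (u + J - 1) ≤ 2 * T / h := by
      rw [le_div_iff₀ hpos]; linarith
    have h6 : ((u + J : ℕ) : ℝ) ≤ 2 * T / h + 1 := by linarith
    have h7 : 2 * T / h = 2 / h * T := by ring
    rw [Real.rpow_two]
    nlinarith
  have huJ0 : (0:ℝ) < ((u + J : ℕ) : ℝ) := by
    have : 0 < u + J := by omega
    exact_mod_cast this
  have h8 : (J : ℝ)⁻¹ * ((u + J : ℕ) : ℝ) ^ (1 / 2 : ℝ) ≤ T ^ (-(κ / 2)) := by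
    have h9 : T ^ κ * ((u + J : ℕ) : ℝ) ≤ (J : ℝ) ^ 2 := by push_cast; exact hwin
    have h10 : T ^ (κ / 2) * ((u + J : ℕ) : ℝ) ^ (1 / 2 : ℝ) ≤ J := by
      have h11 : (T ^ κ * ((u + J : ℕ) : ℝ)) ^ (1 / 2 : ℝ) ≤ ((J : ℝ) ^ 2) ^ (1 / 2 : ℝ) :=
        Real.rpow_le_rpow (by positivity) h9 (by norm_num)
      have e3 : (T ^ κ) ^ (1 / 2 : ℝ) = T ^ (κ / 2) := by
        rw [← Real.rpow_mul hT0.le]; congr 1; ring
      have e4 : ((J : ℝ) ^ 2) ^ (1 / 2 : ℝ) = J := by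
        rw [← Real.sqrt_eq_rpow]; exact Real.sqrt_sq hJ0.le
      rw [Real.mul_rpow (by positivity) (by positivity), e3, e4] at h11
      exact h11
    rw [Real.rpow_neg hT0.le, inv_mul_le_iff₀ hJ0, ← div_eq_mul_inv, le_div_iff₀ (by positivity)]
    linarith
  have h3 : U183.HS.Lam (3 * ε) (unif J (fun j => h * a (u + j))) ≤ C * T ^ (-(κ / 2) + 3 * ε) := by
    refine (hb u J hJ1).trans ?_
    refine mul_le_mul_of_nonneg_left ?_ hC
    have e1 : ((u + J : ℕ) : ℝ) ^ ((1 + 3 * ε) / 2) = ((u + J : ℕ) : ℝ) ^ (1 / 2 : ℝ) * ((u + J : ℕ) : ℝ) ^ (3 * ε / 2) := by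
      rw [← Real.rpow_add huJ0]; congr 1; ring
    have e2 : ((u + J : ℕ) : ℝ) ^ (3 * ε / 2) ≤ T ^ (3 * ε) := by
      calc ((u + J : ℕ) : ℝ) ^ (3 * ε / 2) ≤ (T ^ (2:ℝ)) ^ (3 * ε / 2) := Real.rpow_le_rpow huJ0.le huJ (by positivity)
        _ = T ^ (3 * ε) := by rw [← Real.rpow_mul hT0.le]; congr 1; ring
    rw [e1, Real.rpow_add hT0, ← mul_assoc]
    gcongr
  calc U183.HS.Lam (3 * ε) (unif J (fun j => h * a (u + j))) * T ^ (2 * θ * (1 / 2 + 4 * ε))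
      ≤ (C * T ^ (-(κ / 2) + 3 * ε)) * T ^ (2 * θ * (1 / 2 + 4 * ε)) := by gcongr
    _ = C * T ^ ((-(κ / 2) + 3 * ε) + 2 * θ * (1 / 2 + 4 * ε)) := by rw [mul_assoc, ← Real.rpow_add hT0]
    _ ≤ C * T ^ (-(g / 4) + -(η + g / 2)) := by
        refine mul_le_mul_of_nonneg_left (Real.rpow_le_rpow_of_exponent_le q2 ?_) hC
        have e : (-(κ / 2) + 3 * ε) + 2 * θ * (1 / 2 + 4 * ε) = ε * (3 + 8 * θ) - κ / 2 + θ := by ring
        rw [e]
        linarith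
    _ = (C * T ^ (-(g / 4))) * T ^ (-(η + g / 2)) := by rw [Real.rpow_add hT0]; ring
    _ ≤ 1 * T ^ (-(η + g / 2)) := by gcongr
    _ = _ := one_mul _

lemma frostman_nonneg {s K : ℝ} {μ : Measure ℝ} (h : Frostman s K μ) : 0 ≤ K := by
  by_contra hK
  rw [not_le] at hK
  have := h.1
  have h1 := h.2.2 0 3 (by norm_num)
  rw [ENNReal.ofReal_of_nonpos (by
    have : (0:ℝ) ≤ 3 ^ s := by positivity
    nlinarith)] at h1
  have h2 : ∀ᵐ x ∂μ, x ∈ Metric.closedBall (0:ℝ) 3 := by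
    filter_upwards [h.2.1] with x hx
    rw [Metric.mem_closedBall, Real.dist_eq, sub_zero, abs_le]
    constructor <;> linarith [hx.1, hx.2]
  have h3 : μ (Metric.closedBall (0:ℝ) 3) = 1 := by
    rw [prob_compl_eq_zero_iff Metric.isClosed_closedBall.measurableSet |>.symm]
    exact h2
  rw [h3] at h1
  simp at h1

/-- Frostman measures -/
lemma part3 {s : ℝ} (hs0 : 0 < s) (hs : s < 1) {m : ℝ} (hm0 : 0 ≤ m) (hm : m < s / 2) :
    ∃ ρ : ℝ, 0 < ρ ∧ ∀ K : ℝ, ∃ (X₀ : ℝ) (A : ℝ → Measure ℝ → Set ℝ),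
      (∀ X : ℝ, X₀ ≤ X → ∀ μ : Measure ℝ, Frostman s K μ →
        MeasurableSet (A X μ) ∧ volume (A X μ) ≤ ENNReal.ofReal (X ^ (1 - ρ))) ∧
      Recipe m (fun T ν => ∃ (X : ℝ) (μ : Measure ℝ), X₀ ≤ X ∧ Frostman s K μ ∧ T ∈ Icc X (2 * X) ∧ T ∉ A X μ ∧
        ν = μ.map (fun x => T * x)) := by
  obtain ⟨g, hg⟩ : ∃ g, g = s / 2 - m := ⟨_, rfl⟩
  have hg0 : 0 < g := by rw [hg]; linarith
  obtain ⟨ε, hε⟩ : ∃ ε, ε = g / (32 * (m + 1)) := ⟨_, rfl⟩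
  have hε0 : 0 < ε := by rw [hε]; positivity
  have hεg : 8 * m * ε ≤ g / 4 := by
    rw [hε, mul_div_assoc', div_le_div_iff₀ (by positivity) (by norm_num)]
    nlinarith
  refine ⟨g / 4, by positivity, fun K => ?_⟩
  by_cases hK : 0 ≤ K
  swap
  · refine ⟨0, fun _ _ => ∅, fun X _ μ hμ => absurd (frostman_nonneg hμ) hK, ?_⟩
    intro k a b θ η _ _ _ ψ _ _ _
    exact ⟨0, fun T _ ν ⟨X, μ, _, hμ, _⟩ => absurd (frostman_nonneg hμ) hK⟩
  obtain ⟨X₀, hX₀, hfro⟩ := U183.HS.fro_lam hs0 hs hK (δ := 3 * ε) (η := g / 4) (by positivity) (by positivity)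
  have hfro' : ∀ X : ℝ, ∀ μ : Measure ℝ, ∃ A : Set ℝ, X₀ ≤ X → Frostman s K μ → MeasurableSet A ∧
      volume A ≤ ENNReal.ofReal (X ^ (1 - g / 4)) ∧ ∀ T ∈ Set.Icc X (2 * X), T ∉ A →
        U183.HS.Lam (3 * ε) (μ.map (fun x => T * x)) ≤ (U183.HS.sS (3 * ε) + 1) / 2 * X ^ (-(s / 2) + g / 4) := by
    intro X μ
    by_cases h : X₀ ≤ X ∧ Frostman s K μ
    · obtain ⟨A, hA⟩ := hfro X h.1 μ ⟨h.2.1, h.2.2.1, h.2.2.2⟩
      exact ⟨A, fun _ _ => hA⟩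
    · exact ⟨∅, fun h1 h2 => absurd ⟨h1, h2⟩ h⟩
  choose A hA using hfro'
  refine ⟨X₀, A, fun X hX μ hμ => ⟨(hA X μ hX hμ).1, (hA X μ hX hμ).2.1⟩, ?_⟩
  refine recipe_lam fun θ η hθ hη hm => ?_
  obtain ⟨C, hC⟩ : ∃ C, C = (U183.HS.sS (3 * ε) + 1) / 2 * 2 := ⟨_, rfl⟩
  have hC0 : 0 ≤ C := by
    have := U183.HS.sS_nonneg (3 * ε)
    rw [hC]; positivity
  have t1 : Tendsto (fun T : ℝ => C * T ^ (-(g / 4))) atTop (𝓝 (C * 0)) :=
    (tendsto_rpow_neg_atTop (by positivity)).const_mul _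
  rw [mul_zero] at t1
  obtain ⟨T₁, hT₁⟩ := eventually_atTop.mp ((t1.eventually (gt_mem_nhds (show (0:ℝ) < 1 by norm_num))).and
    (eventually_ge_atTop 1))
  refine ⟨ε, g / 4, T₁, hε0, by positivity, fun T hT ν ⟨X, μ, hX, hμ, hTX, hTA, hν⟩ => ?_⟩
  obtain ⟨q1, q2⟩ := hT₁ T hT
  have hT0 : 0 < T := by linarith
  have hX0 : 0 < X := by linarith
  have hpr := hμ.1
  have hme : MeasurableEmbedding (fun x : ℝ => T * x) := (Homeomorph.mulLeft₀ T hT0.ne').measurableEmbedding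
  subst hν
  refine ⟨Measure.isProbabilityMeasure_map hme.measurable.aemeasurable, ?_, ?_⟩
  · refine (ae_map_iff (p := fun t => t ∈ Icc T (2 * T)) hme.measurable.aemeasurable measurableSet_Icc).2 ?_
    filter_upwards [hμ.2.1] with x hx
    exact ⟨by nlinarith [hx.1], by nlinarith [hx.2]⟩
  · have h1 := (hA X μ hX hμ).2.2 T hTX hTA
    have hS := U183.HS.sS_nonneg (3 * ε)
    have h9 : -(s / 2) + g / 4 ≤ 0 := by rw [hg]; linarith
    have h3 : X ^ (-(s / 2) + g / 4) ≤ 2 * T ^ (-(s / 2) + g / 4) := by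
      have h10 : T / 2 ≤ X := by linarith [hTX.2]
      calc X ^ (-(s / 2) + g / 4) ≤ (T / 2) ^ (-(s / 2) + g / 4) := Real.rpow_le_rpow_of_nonpos (by positivity) h10 h9
        _ = T ^ (-(s / 2) + g / 4) * 2 ^ (s / 2 - g / 4) := by
            rw [Real.div_rpow hT0.le (by norm_num), div_eq_mul_inv, ← Real.rpow_neg (by norm_num)]
            congr 2; ring
        _ ≤ T ^ (-(s / 2) + g / 4) * 2 ^ (1:ℝ) := by
            refine mul_le_mul_of_nonneg_left ?_ (by positivity)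
            exact Real.rpow_le_rpow_of_exponent_le (by norm_num) (by linarith)
        _ = _ := by rw [Real.rpow_one]; ring
    have h4 : U183.HS.Lam (3 * ε) (μ.map (fun x => T * x)) ≤ C * T ^ (-(s / 2) + g / 4) := by
      refine h1.trans ?_
      rw [hC, mul_assoc]
      refine mul_le_mul_of_nonneg_left h3 (by positivity)
    calc U183.HS.Lam (3 * ε) (μ.map (fun x => T * x)) * T ^ (2 * θ * (1 / 2 + 4 * ε))
        ≤ (C * T ^ (-(s / 2) + g / 4)) * T ^ (2 * θ * (1 / 2 + 4 * ε)) := by gcongr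
      _ = C * T ^ ((-(s / 2) + g / 4) + 2 * θ * (1 / 2 + 4 * ε)) := by rw [mul_assoc, ← Real.rpow_add hT0]
      _ ≤ C * T ^ (-(g / 4) + -(η + g / 4)) := by
          refine mul_le_mul_of_nonneg_left (Real.rpow_le_rpow_of_exponent_le q2 ?_) hC0
          have e : (-(s / 2) + g / 4) + 2 * θ * (1 / 2 + 4 * ε) = -(s / 2) + g / 4 + θ + 8 * θ * ε := by ring
          have e2 : 8 * θ * ε ≤ 8 * m * ε := by
            have : θ ≤ m := by linarith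
            gcongr
          rw [e]
          linarith
      _ = (C * T ^ (-(g / 4))) * T ^ (-(η + g / 4)) := by rw [Real.rpow_add hT0]; ring
      _ ≤ 1 * T ^ (-(η + g / 4)) := by gcongr
      _ = _ := one_mul _

/-- The recipe, for all `k`, all shifts and all band-limited weights, with a power saving, along sparse sets of heights.
(1) For almost every `h > 0`: arithmetic progressions `x + j h`, `j < J`, in `[T, 2T]` with `J ≥ T^κ` terms, up to the exponent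
`κ`. (2) For every sequence `0 ≤ a_0`, `a_{j+1} ≥ a_j + 1` and almost every `h > 0`: windows of the heights `h a_j` in `[T, 2T]`
with `T^κ (u + J) ≤ J^2`, up to `κ/2`. (3) Heights `T x`, `x` distributed by a Frostman measure of dimension `s < 1`, up to every
`m < s/2`, for all `T ∈ [X, 2X]` outside a set of measure `X^(1-ρ)` that does not depend on `k`, the shifts and the weight. -/
theorem result :
    (∀ᵐ h : ℝ, 0 < h → ∀ κ : ℝ, 0 < κ → Recipe κ (fun T ν => ∃ (J : ℕ) (x : ℝ), T ^ κ ≤ J ∧ T ≤ x ∧ x + J * h ≤ 2 * T ∧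
      ν = unif J (fun j => x + j * h))) ∧
    (∀ a : ℕ → ℝ, 0 ≤ a 0 → (∀ j, a j + 1 ≤ a (j + 1)) → ∀ᵐ h : ℝ, 0 < h → ∀ κ : ℝ, 0 < κ →
      Recipe (κ / 2) (fun T ν => ∃ u J : ℕ, 1 ≤ J ∧ (∀ j < J, h * a (u + j) ∈ Icc T (2 * T)) ∧
        T ^ κ * ((u : ℝ) + J) ≤ (J : ℝ) ^ 2 ∧ ν = unif J (fun j => h * a (u + j)))) ∧
    (∀ s : ℝ, 0 < s → s < 1 → ∀ m : ℝ, 0 ≤ m → m < s / 2 → ∃ ρ : ℝ, 0 < ρ ∧ ∀ K : ℝ,
      ∃ (X₀ : ℝ) (A : ℝ → Measure ℝ → Set ℝ),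
        (∀ X : ℝ, X₀ ≤ X → ∀ μ : Measure ℝ, Frostman s K μ →
          MeasurableSet (A X μ) ∧ volume (A X μ) ≤ ENNReal.ofReal (X ^ (1 - ρ))) ∧
        Recipe m (fun T ν => ∃ (X : ℝ) (μ : Measure ℝ), X₀ ≤ X ∧ Frostman s K μ ∧ T ∈ Icc X (2 * X) ∧ T ∉ A X μ ∧
          ν = μ.map (fun x => T * x))) :=
  ⟨part1, part2, fun _ hs0 hs _ hm0 hm => part3 hs0 hs hm0 hm⟩

end

end Pool.Agent.Results.MP_fa2474_nt.SparseHeights
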